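import Mathlib
import Pool.Agent.W516.K3.Defs
import Pool.Agent.W516.KU.Defs

/-!
# Statements for the project on de Rham-Betti classes of abelian varieties of signature (1, n - 1)
(project BQ)
-/

namespace Pool.Agent.W516.BQ

open Module TensorProduct Pool.Agent.W516.K3 Pool.Agent.W516.KU

section Basic

variable {F T : Type} [Field F] [AddCommGroup T] [Module F T]

/-- A form in `m + m` variables which is linear and alternating in the first `m` variables,
antilinear and alternating in the last `m` variables, for the multiplication by `δ`. -/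
structure IsSesqui (δ : Module.End F T) {m : ℕ}
    (Φ : MultilinearMap F (fun _ : Fin m × Fin 2 => T) F) : Prop where
  lin : ∀ (v : Fin m × Fin 2 → T) (i j : Fin m), Φ (Function.update v (i, 0) (δ (v (i, 0)))) =
    Φ (Function.update v (j, 0) (δ (v (j, 0))))
  anti : ∀ (v : Fin m × Fin 2 → T) (i j : Fin m), Φ (Function.update v (i, 1) (δ (v (i, 1)))) =
    -Φ (Function.update v (j, 0) (δ (v (j, 0))))
  alt0 : ∀ (v : Fin m × Fin 2 → T) (i j : Fin m), i ≠ j → v (i, 0) = v (j, 0) → Φ v = 0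
  alt1 : ∀ (v : Fin m × Fin 2 → T) (i j : Fin m), i ≠ j → v (i, 1) = v (j, 1) → Φ v = 0

/-- An alternating form which is linear in all variables for the multiplication by `δ`. -/
structure IsDetForm (δ : Module.End F T) {κ : Type} [DecidableEq κ]
    (Ψ : MultilinearMap F (fun _ : κ => T) F) : Prop where
  lin : ∀ (v : κ → T) (p q : κ), Ψ (Function.update v p (δ (v p))) =
    Ψ (Function.update v q (δ (v q)))
  alt : ∀ (v : κ → T) (p q : κ), p ≠ q → v p = v q → Ψ v = 0

end Basic

/-- The form given by the volume form of a real form: it is annihilated by the orthogonal Lie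
algebra of the real form and by `J`, but not by the unitary Lie algebra. -/
def S_VOL : Prop :=
  ∀ (T : Type) [AddCommGroup T] [Module ℝ T] [FiniteDimensional ℝ T]
    (b : T →ₗ[ℝ] T →ₗ[ℝ] ℝ) (J : Module.End ℝ T), Herm b J →
    ∀ V₀ : Submodule ℝ T, IsCompl V₀ (V₀.map J) → (∀ u ∈ V₀, ∀ v ∈ V₀, b u (J v) = 0) →
    ∀ m : ℕ, 0 < m → finrank ℝ V₀ = 2 * m →
    ∃ Φ : MultilinearMap ℝ (fun _ : Fin m × Fin 2 => T) ℝ, IsSesqui J Φ ∧
      (∀ x : Module.End ℝ T, (∀ u v, b (x u) v + b u (x v) = 0) → x * J = J * x →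
        (∃ c : ℝ, ∀ v ∈ V₀, (x - c • J) v ∈ V₀) → KillsM x Φ) ∧
      ¬ ∀ x : Module.End ℝ T, (∀ u v, b (x u) v + b u (x v) = 0) → x * J = J * x → KillsM x Φ

/-- The complex determinant. -/
def S_DET : Prop :=
  ∀ (T : Type) [AddCommGroup T] [Module ℝ T] [FiniteDimensional ℝ T] (J : Module.End ℝ T),
    J * J = -1 → ∀ (κ : Type) [Fintype κ] [DecidableEq κ], finrank ℝ T = 2 * Fintype.card κ →
    ∃ Ψ : MultilinearMap ℝ (fun _ : κ => T) ℝ, Ψ ≠ 0 ∧ IsDetForm J Ψ ∧
      ∀ x : Module.End ℝ T, x * J = J * x → LinearMap.trace ℝ T x = 0 →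
        LinearMap.trace ℝ T (x * J) = 0 → KillsM x Ψ

end Pool.Agent.W516.BQ
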