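import Mathlib
import Pool.Agent.W516.KU.Main
import Pool.Agent.W516.BQ.Defs
import Pool.Agent.W52.KU.ADJ

/-!
# De Rham-Betti forms on a hermitian space of signature (1, n - 1)
-/

set_option linter.unusedSectionVars false

namespace Pool.Agent.W516.BQ

open Module TensorProduct Pool.Agent.H204R3.SP Pool.Agent.H204R3.GP Pool.Agent.W516.DR
  Pool.Agent.W516.KC Pool.Agent.W516.K3 Pool.Agent.W32.DK Pool.Agent.W516.KU

noncomputable section

/-! ### Rank one endomorphisms -/

section El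

variable {F T : Type} [Field F] [AddCommGroup T] [Module F T]

/-- The endomorphism `t ↦ d b(v, t) w + b(δ v, t) δ w`. -/
def el (b : T →ₗ[F] T →ₗ[F] F) (δ : Module.End F T) (d : F) (v w : T) : Module.End F T :=
  d • (b v).smulRight w + (b (δ v)).smulRight (δ w)

theorem el_apply (b : T →ₗ[F] T →ₗ[F] F) (δ : Module.End F T) (d : F) (v w t : T) :
    el b δ d v w t = d • (b v t • w) + b (δ v) t • δ w := rfl

theorem el_comm (b : T →ₗ[F] T →ₗ[F] F) (δ : Module.End F T) (d : F)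
    (hδδ : δ * δ = -(d • 1)) (hδb : ∀ u v, b (δ u) v = -b u (δ v)) (v w : T) :
    el b δ d v w * δ = δ * el b δ d v w := by
  refine LinearMap.ext fun t => ?_
  have h1 : ∀ u, δ (δ u) = -(d • u) := fun u => by
    rw [← Module.End.mul_apply, hδδ]
    rfl
  have h2 : b (δ v) (δ t) = d * b v t := by
    rw [hδb, h1, map_neg, neg_neg, map_smul, smul_eq_mul]
  have h3 : b v (δ t) = -b (δ v) t := by rw [hδb, neg_neg]
  rw [Module.End.mul_apply, Module.End.mul_apply, el_apply, el_apply, map_add, map_smul, map_smul,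
    map_smul, h1, h2, h3]
  module

theorem el_add_left (b : T →ₗ[F] T →ₗ[F] F) (δ : Module.End F T) (d : F) (v v' w : T) :
    el b δ d (v + v') w = el b δ d v w + el b δ d v' w := by
  refine LinearMap.ext fun t => ?_
  simp only [el_apply, LinearMap.add_apply, map_add]
  module

theorem el_add_right (b : T →ₗ[F] T →ₗ[F] F) (δ : Module.End F T) (d : F) (v w w' : T) :
    el b δ d v (w + w') = el b δ d v w + el b δ d v w' := by
  refine LinearMap.ext fun t => ?_
  simp only [el_apply, LinearMap.add_apply, map_add]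
  module

theorem el_zero_left (b : T →ₗ[F] T →ₗ[F] F) (δ : Module.End F T) (d : F) (w : T) :
    el b δ d 0 w = 0 := by
  refine LinearMap.ext fun t => ?_
  simp only [el_apply, LinearMap.zero_apply, map_zero]
  module

theorem el_zero_right (b : T →ₗ[F] T →ₗ[F] F) (δ : Module.End F T) (d : F) (v : T) :
    el b δ d v 0 = 0 := by
  refine LinearMap.ext fun t => ?_
  simp only [el_apply, LinearMap.zero_apply, map_zero]
  module

end El

/-- Irreducibility from the rank one endomorphisms. -/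
theorem irr_el {T : Type} [AddCommGroup T] [Module ℝ T] (b : T →ₗ[ℝ] T →ₗ[ℝ] ℝ)
    (J : Module.End ℝ T) (hH : Herm b J) (S : Set (Module.End ℝ T))
    (h : ∀ v w, el b J 1 v w ∈ Algebra.adjoin ℝ S) :
    (∀ U : Submodule ℝ T, (∀ x ∈ S, ∀ u ∈ U, x u ∈ U) → U = ⊥ ∨ U = ⊤) ∧
    (∀ P : Module.End ℝ T, (∀ x ∈ S, x * P = P * x) → ∃ c e : ℝ, P = c • 1 + e • J) := by
  have hJJ : ∀ u, J (J u) = -u := fun u => by
    rw [← Module.End.mul_apply, hH.sq]
    rfl
  have key : ∀ u : T, u ≠ 0 → ∃ v, b v u = 1 ∧ b (J v) u = 0 := by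
    intro u hu
    obtain ⟨v0, hv0⟩ : ∃ v, b v u ≠ 0 := by
      by_contra hcon
      push Not at hcon
      exact hu (hH.nondeg u fun v => by rw [hH.symm, hcon])
    set α := b v0 u with hα
    set β := b (J v0) u with hβ
    have hpos : α * α + β * β ≠ 0 := by
      have h1 : 0 < α * α := mul_self_pos.2 hv0
      have h2 : 0 ≤ β * β := mul_self_nonneg β
      exact (by linarith : 0 < α * α + β * β).ne'
    refine ⟨(α * α + β * β)⁻¹ • (α • v0 + β • J v0), ?_, ?_⟩
    · rw [map_smul, LinearMap.smul_apply, map_add, LinearMap.add_apply, map_smul, map_smul,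
        LinearMap.smul_apply, LinearMap.smul_apply, ← hα, ← hβ, smul_eq_mul, smul_eq_mul,
        smul_eq_mul, inv_mul_cancel₀ hpos]
    · rw [map_smul, map_smul, LinearMap.smul_apply, map_add, map_add, LinearMap.add_apply,
        map_smul, map_smul, map_smul, map_smul, LinearMap.smul_apply, LinearMap.smul_apply, hJJ,
        map_neg, LinearMap.neg_apply, ← hα, ← hβ]
      simp only [smul_eq_mul]
      ring
  constructor
  · intro U hU
    by_cases h0 : U = ⊥
    · exact Or.inl h0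
    right
    obtain ⟨u, hu, hu0⟩ := U.ne_bot_iff.1 h0
    obtain ⟨v, hv1, hv2⟩ := key u hu0
    rw [eq_top_iff]
    intro w _
    have h1 : ∀ a ∈ Algebra.adjoin ℝ S, ∀ u ∈ U, a u ∈ U := by
      intro a ha
      induction ha using Algebra.adjoin_induction with
      | mem x hx => exact hU x hx
      | algebraMap r =>
        intro u hu
        rw [Module.algebraMap_end_apply]
        exact U.smul_mem r hu
      | add x y _ _ hx hy => exact fun u hu => U.add_mem (hx u hu) (hy u hu)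
      | mul x y _ _ hx hy => exact fun u hu => hx _ (hy u hu)
    have h2 := h1 _ (h v w) u hu
    rw [el_apply, hv1, hv2, one_smul, one_smul, zero_smul, add_zero] at h2
    exact h2
  · intro P hP
    by_cases h0 : ∀ u : T, u = 0
    · exact ⟨0, 0, LinearMap.ext fun u => by rw [h0 (P u), h0 u]; simp⟩
    push Not at h0
    obtain ⟨u, hu0⟩ := h0
    obtain ⟨v, hv1, hv2⟩ := key u hu0
    refine ⟨b v (P u), b (J v) (P u), LinearMap.ext fun w => ?_⟩
    have h1 := congrArg (fun Q : Module.End ℝ T => Q u) (comm_adjoin hP (h v w))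
    simp only [Module.End.mul_apply, el_apply, hv1, hv2, one_smul, zero_smul, add_zero] at h1
    rw [LinearMap.add_apply, LinearMap.smul_apply, LinearMap.smul_apply, Module.End.one_apply]
    exact h1.symm

variable {k K : Type} [Field k] [Field K] [CharZero k] [CharZero K] [IsAlgClosed K] [Algebra k K]
  [Algebra k ℂ] [Algebra K ℂ] [IsScalarTower k K ℂ] [Algebra k ℝ] [IsScalarTower k ℝ ℂ]
  {T : Type} [AddCommGroup T] [Module k T] [FiniteDimensional k T] [Nontrivial T]
  {ι : Type} [Fintype ι] [DecidableEq ι]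
  (ξ : Basis ι ℂ (T →ₗ[k] ℂ))
  (b : T →ₗ[k] T →ₗ[k] k) (δ : Module.End k T) (d : k)
  (hsym : ∀ u v, b u v = b v u) (hnd : ∀ u, (∀ v, b u v = 0) → u = 0)
  (hd : 0 < algebraMap k ℝ d) (hδδ : δ * δ = -(d • 1)) (hδb : ∀ u v, b (δ u) v = -b u (δ v))
  (hδ : IsDeRhamBettiEnd K (ξ : ι → (T →ₗ[k] ℂ)) δ)
  (hb : IsDRBForm K (ξ : ι → (T →ₗ[k] ℂ)) (one2 b))
  (hss : DeRhamBettiSemisimple K (ξ : ι → (T →ₗ[k] ℂ)))
  (hend : ∀ P : Module.End k T, IsDeRhamBettiEnd K (ξ : ι → (T →ₗ[k] ℂ)) P →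
    ∃ a c : k, P = a • 1 + c • δ)

include hb in
theorem skewY (D : Derivation K ℂ ℂ) (lam : ℂ →ₗ[k] k) (u v : T) :
    b (Y0 ξ D lam u) v + b u (Y0 ξ D lam v) = 0 := by
  have h1 := (drb0_iff ξ (Module.finBasis k T) _).1 hb D lam
  rw [kills_one2] at h1
  exact h1 u v

include hb in
theorem gR_skewB {x : Module.End ℝ (ℝ ⊗[k] T)} (hx : x ∈ gR (K := K) ξ) (u v : ℝ ⊗[k] T) :
    bx ℝ b (x u) v + bx ℝ b u (x v) = 0 := by
  have h1 := hx _ _ hb
  have h2 : bcm (Ω := ℝ) (Module.finBasis k T) (one2 b) = one2 (bx ℝ b) :=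
    MultilinearMap.ext fun v => bcm_one2 b _ v
  rw [h2, kills_one2] at h1
  exact h1 u v

include hb hδ in
theorem drb_bdB : IsDRBForm K (ξ : ι → (T →ₗ[k] ℂ)) (one2 (b ∘ₗ δ)) := by
  rw [drb0_iff ξ (Module.finBasis k T)]
  intro D lam
  rw [kills_one2]
  intro u v
  have h1 := skewY (K := K) ξ b hb D lam (δ u) v
  have h2 := congrArg (fun P : Module.End k T => P u) (Y0_comm (K := K) ξ δ hδ D lam)
  simp only [Module.End.mul_apply] at h2
  rw [h2] at h1
  exact h1

include hnd hb hδ in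
theorem gR_commB {x : Module.End ℝ (ℝ ⊗[k] T)} (hx : x ∈ gR (K := K) ξ) :
    x * jj δ d = jj δ d * x := by
  have h1 := hx _ _ (drb_bdB (K := K) ξ b δ hδ hb)
  have h2 : bcm (Ω := ℝ) (Module.finBasis k T) (one2 (b ∘ₗ δ)) = one2 (bx ℝ (b ∘ₗ δ)) :=
    MultilinearMap.ext fun v => bcm_one2 (b ∘ₗ δ) _ v
  rw [h2, kills_one2] at h1
  refine LinearMap.ext fun u => ?_
  rw [Module.End.mul_apply, Module.End.mul_apply, jj_apply, jj_apply, map_smul]
  congr 1
  rw [← sub_eq_zero]
  refine bx_nondeg b ℝ hnd _ fun v => ?_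
  have h3 := h1 u v
  rw [bx_comp, bx_comp] at h3
  have h4 := gR_skewB (K := K) ξ b hb hx (δ.baseChange ℝ u) v
  rw [map_sub, LinearMap.sub_apply]
  linarith

include hss hend hδδ hδb in
theorem el_mem (v w : T) : el b δ d v w ∈ Algebra.adjoin k
    {Z | ∃ (D : Derivation K ℂ ℂ) (lam : ℂ →ₗ[k] k), Z = Y0 ξ D lam} := by
  refine mem_of_comm (K := K) ξ hss _ fun P hP => ?_
  obtain ⟨a, c, rfl⟩ := hend P hP
  have h1 := el_comm b δ d hδδ hδb v w
  rw [add_mul, mul_add, smul_mul_assoc, smul_mul_assoc, mul_smul_comm, mul_smul_comm, one_mul,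
    mul_one, h1]

theorem ts (r : ℝ) (c : k) (w : T) : r ⊗ₜ[k] (c • w) = (algebraMap k ℝ c * r) ⊗ₜ[k] w := by
  rw [TensorProduct.tmul_smul, TensorProduct.smul_tmul', Algebra.smul_def]

theorem bx_one' (a : ℝ) (v t : T) :
    bx ℝ b (a ⊗ₜ[k] v) ((1 : ℝ) ⊗ₜ[k] t) = algebraMap k ℝ (b v t) * a := by
  have h1 : a ⊗ₜ[k] v = a • ((1 : ℝ) ⊗ₜ[k] v) := by
    rw [TensorProduct.smul_tmul', smul_eq_mul, mul_one]
  rw [h1, map_smul, LinearMap.smul_apply, bx_one, smul_eq_mul, mul_comm]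

theorem el_tmul (a a' : ℝ) (v w : T) :
    el (bx ℝ b) (δ.baseChange ℝ) (algebraMap k ℝ d) (a ⊗ₜ[k] v) (a' ⊗ₜ[k] w) =
      (a * a') • (el b δ d v w).baseChange ℝ := by
  apply (Module.finBasis k T).baseChange ℝ |>.ext
  intro i
  rw [Basis.baseChange_apply]
  set t := Module.finBasis k T i
  rw [el_apply, LinearMap.smul_apply, LinearMap.baseChange_tmul, LinearMap.baseChange_tmul,
    LinearMap.baseChange_tmul, el_apply, bx_one', bx_one', TensorProduct.tmul_add, smul_smul d, ts,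
    ts, smul_add, TensorProduct.smul_tmul', TensorProduct.smul_tmul', TensorProduct.smul_tmul',
    TensorProduct.smul_tmul', TensorProduct.smul_tmul', map_mul]
  simp only [smul_eq_mul]
  congr 2 <;> ring

include hd hss hend hδδ hδb in
theorem elR_mem (v w : ℝ ⊗[k] T) : el (bx ℝ b) (jj δ d) 1 v w ∈ Algebra.adjoin ℝ
    {Z : Module.End ℝ (ℝ ⊗[k] T) |
      ∃ (D : Derivation K ℂ ℂ) (lam : ℂ →ₗ[k] k), Z = (Y0 ξ D lam).baseChange ℝ} := by
  have h1 : el (bx ℝ b) (jj δ d) 1 v w = (algebraMap k ℝ d)⁻¹ •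
      el (bx ℝ b) (δ.baseChange ℝ) (algebraMap k ℝ d) v w := by
    refine LinearMap.ext fun t => ?_
    rw [LinearMap.smul_apply, el_apply, el_apply, jj_apply, jj_apply, map_smul,
      LinearMap.smul_apply, smul_add, smul_smul (algebraMap k ℝ d)⁻¹, inv_mul_cancel₀ hd.ne',
      one_smul, smul_eq_mul]
    congr 1
    rw [smul_smul, smul_smul, ← sqrt_sq d hd]
    congr 1
    ring
  rw [h1]
  clear h1
  refine Subalgebra.smul_mem _ ?_ _
  induction v using TensorProduct.induction_on with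
  | zero => rw [el_zero_left]; exact zero_mem _
  | add x y hx hy => rw [el_add_left]; exact add_mem hx hy
  | tmul a t =>
    induction w using TensorProduct.induction_on with
    | zero => rw [el_zero_right]; exact zero_mem _
    | add x y hx hy => rw [el_add_right]; exact add_mem hx hy
    | tmul a' t' =>
      rw [el_tmul]
      refine Subalgebra.smul_mem _ ?_ _
      have h2 := Pool.Agent.W52.KU.T_ADJ k ℝ T _ _
        (el_mem (K := K) ξ b δ d hδδ hδb hss hend t t')
      have h3 : {Z : Module.End ℝ (ℝ ⊗[k] T) | ∃ Z₀ ∈ {Z | ∃ (D : Derivation K ℂ ℂ)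
          (lam : ℂ →ₗ[k] k), Z = Y0 ξ D lam}, Z = Z₀.baseChange ℝ} =
          {Z | ∃ (D : Derivation K ℂ ℂ) (lam : ℂ →ₗ[k] k), Z = (Y0 ξ D lam).baseChange ℝ} := by
        ext Z
        constructor
        · rintro ⟨_, ⟨D, lam, rfl⟩, rfl⟩
          exact ⟨D, lam, rfl⟩
        · rintro ⟨D, lam, rfl⟩
          exact ⟨_, ⟨D, lam, rfl⟩, rfl⟩
      rw [h3] at h2
      exact h2

include hsym hnd hd hδδ hδb hδ hb hss hend in
/-- The real Lie algebra satisfies all conditions. -/
theorem goodB (S3 : S_KILL) (hsig : WittTwo (bx ℝ b)) :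
    GoodJ (bx ℝ b) (jj δ d) (gR (K := K) ξ) := by
  have hH := herm_jj b δ d hsym hnd hd hδδ hδb
  have h2 := irr_el (bx ℝ b) (jj δ d) hH
    {Z : Module.End ℝ (ℝ ⊗[k] T) |
      ∃ (D : Derivation K ℂ ℂ) (lam : ℂ →ₗ[k] k), Z = (Y0 ξ D lam).baseChange ℝ}
    (fun v w => elR_mem (K := K) ξ b δ d hd hδδ hδb hss hend v w)
  have hskew : ∀ x ∈ gR (K := K) ξ, ∀ u v, bx ℝ b (x u) v + bx ℝ b u (x v) = 0 :=
    fun x hx => gR_skewB ξ b hb hx
  have hbr : ∀ x ∈ gR (K := K) ξ, ∀ y ∈ gR (K := K) ξ, x * y - y * x ∈ gR (K := K) ξ := by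
    intro x hx y hy κ _ _ φ hφ
    exact kills_bracket (hx κ φ hφ) (hy κ φ hφ)
  have hirr : ∀ U : Submodule ℝ (ℝ ⊗[k] T), (∀ x ∈ gR (K := K) ξ, ∀ u ∈ U, x u ∈ U) →
      U = ⊥ ∨ U = ⊤ := by
    intro U hU
    refine h2.1 U ?_
    rintro x ⟨D, lam, rfl⟩ u hu
    exact hU _ (Y0_mem ξ D lam) u hu
  have hcomm : ∀ P : Module.End ℝ (ℝ ⊗[k] T), (∀ x ∈ gR (K := K) ξ, x * P = P * x) →
      ∃ c e : ℝ, P = c • 1 + e • jj δ d := by
    intro P hP
    refine h2.2 P ?_
    rintro x ⟨D, lam, rfl⟩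
    exact hP _ (Y0_mem ξ D lam)
  refine ⟨hH, hsig.2.2, hskew, fun x hx => gR_commB (K := K) ξ b δ d hnd hδ hb hx, hbr,
    hirr, hcomm, ?_, ?_⟩
  · intro x hx htr
    have h5 := central_of_trace (gR (K := K) ξ) (by
      intro U hU
      rcases hirr U hU with rfl | rfl
      · exact ⟨⊤, fun _ _ _ _ => trivial, isCompl_bot_top⟩
      · exact ⟨⊥, fun X _ u hu => by
          rw [Submodule.mem_bot] at hu
          rw [hu, map_zero]
          exact Submodule.zero_mem _, isCompl_top_bot⟩) hbr hx htr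
    obtain ⟨c, e, he⟩ := hcomm x h5
    obtain ⟨⟨v0, hv0⟩, -, -⟩ := hsig
    have hJsk : ∀ u v, bx ℝ b (jj δ d u) v = -bx ℝ b u (jj δ d v) := by
      intro u v
      have h6 := hH.isom (jj δ d u) v
      rw [← Module.End.mul_apply, hH.sq, LinearMap.neg_apply, Module.End.one_apply, map_neg,
        LinearMap.neg_apply] at h6
      linarith
    have hc : c = 0 := by
      have h6 := hskew x hx v0 v0
      rw [he] at h6
      simp only [LinearMap.add_apply, LinearMap.smul_apply, Module.End.one_apply, map_add,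
        map_smul, smul_eq_mul, hJsk] at h6
      have h7 : c * bx ℝ b v0 v0 = 0 := by linarith
      exact (mul_eq_zero.1 h7).resolve_right hv0.ne'
    have h6 := htr x hx
    rw [hc, zero_smul, zero_add] at he
    have h7 : x * x = (-(e * e)) • (1 : Module.End ℝ (ℝ ⊗[k] T)) := by
      rw [he]
      refine LinearMap.ext fun u => ?_
      rw [Module.End.mul_apply, LinearMap.smul_apply, LinearMap.smul_apply, map_smul, smul_smul,
        ← Module.End.mul_apply, hH.sq, LinearMap.neg_apply, LinearMap.smul_apply,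
        Module.End.one_apply, smul_neg, neg_smul]
    rw [h7, map_smul, LinearMap.trace_one, smul_eq_mul] at h6
    have h8 : (finrank ℝ (ℝ ⊗[k] T) : ℝ) ≠ 0 := by
      rw [Module.finrank_baseChange]
      have : finrank k T ≠ 0 := (Module.finrank_pos (R := k) (M := T)).ne'
      exact_mod_cast this
    have h9 : e = 0 := by
      have h10 := (mul_eq_zero.1 h6).resolve_right h8
      have h11 : e * e = 0 := by linarith
      exact mul_self_eq_zero.1 h11
    rw [he, h9, zero_smul]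
  · intro y z hyz hc hy hz κ _ _ φ hφ
    exact S3 _ κ _ y z hc hy hz (hyz κ φ hφ)

/-! ### Descent of forms -/

/-- The components of a form killed by the logarithmic derivatives are de Rham-Betti forms. -/
theorem fcmp_drb {κ : Type} [Fintype κ] [DecidableEq κ]
    (Φ : MultilinearMap ℝ (fun _ : κ => ℝ ⊗[k] T) ℝ)
    (h : ∀ x ∈ gR (K := K) ξ, Kills x Φ) (lam : ℝ →ₗ[k] k) :
    IsDRBForm K (ξ : ι → (T →ₗ[k] ℂ)) (fcmp lam Φ) := by
  rw [drb0_iff ξ (Module.finBasis k T)]
  intro D lam'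
  exact kills_fcmp lam Φ _ (h _ (Y0_mem ξ D lam'))

theorem fcmp_update {κ : Type} [Fintype κ] [DecidableEq κ]
    (Φ : MultilinearMap ℝ (fun _ : κ => ℝ ⊗[k] T) ℝ) (lam : ℝ →ₗ[k] k) (v : κ → T) (p : κ) :
    fcmp lam Φ (Function.update v p (δ (v p))) =
      lam (Φ (Function.update (fun l => (1 : ℝ) ⊗ₜ[k] v l) p
        (δ.baseChange ℝ ((1 : ℝ) ⊗ₜ[k] v p)))) := by
  rw [fcmp_apply]
  congr 2
  funext l
  by_cases hl : l = p
  · subst hl
    rw [Function.update_self, Function.update_self, LinearMap.baseChange_tmul]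
  · rw [Function.update_of_ne hl, Function.update_of_ne hl]

theorem jj_update {κ : Type} [Fintype κ] [DecidableEq κ] (hd : 0 < algebraMap k ℝ d)
    (Φ : MultilinearMap ℝ (fun _ : κ => ℝ ⊗[k] T) ℝ) (v : κ → ℝ ⊗[k] T) (p : κ) :
    Φ (Function.update v p (δ.baseChange ℝ (v p))) =
      Real.sqrt (algebraMap k ℝ d) * Φ (Function.update v p (jj δ d (v p))) := by
  have h1 : δ.baseChange ℝ (v p) = Real.sqrt (algebraMap k ℝ d) • jj δ d (v p) := by
    rw [jj_apply, smul_smul, mul_inv_cancel₀ (Real.sqrt_pos.2 hd).ne', one_smul]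
  rw [h1, MultilinearMap.map_update_smul, smul_eq_mul]

theorem sesqui_fcmp (hd : 0 < algebraMap k ℝ d) {m : ℕ}
    (Φ : MultilinearMap ℝ (fun _ : Fin m × Fin 2 => ℝ ⊗[k] T) ℝ) (h : IsSesqui (jj δ d) Φ)
    (lam : ℝ →ₗ[k] k) : IsSesqui δ (fcmp lam Φ) := by
  refine ⟨fun v i j => ?_, fun v i j => ?_, fun v i j hij hv => ?_, fun v i j hij hv => ?_⟩
  · rw [fcmp_update, fcmp_update, jj_update δ d hd Φ _ (i, 0), jj_update δ d hd Φ _ (j, 0),
      h.lin (fun l => (1 : ℝ) ⊗ₜ[k] v l) i j]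
  · rw [fcmp_update, fcmp_update, jj_update δ d hd Φ _ (i, 1), jj_update δ d hd Φ _ (j, 0),
      h.anti (fun l => (1 : ℝ) ⊗ₜ[k] v l) i j, mul_neg, map_neg]
  · rw [fcmp_apply, h.alt0 (fun l => (1 : ℝ) ⊗ₜ[k] v l) i j hij (by rw [hv]), map_zero]
  · rw [fcmp_apply, h.alt1 (fun l => (1 : ℝ) ⊗ₜ[k] v l) i j hij (by rw [hv]), map_zero]

theorem det_fcmp (hd : 0 < algebraMap k ℝ d) {κ : Type} [Fintype κ] [DecidableEq κ]
    (Φ : MultilinearMap ℝ (fun _ : κ => ℝ ⊗[k] T) ℝ) (h : IsDetForm (jj δ d) Φ)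
    (lam : ℝ →ₗ[k] k) : IsDetForm δ (fcmp lam Φ) := by
  refine ⟨fun v p q => ?_, fun v p q hpq hv => ?_⟩
  · rw [fcmp_update, fcmp_update, jj_update δ d hd Φ _ p, jj_update δ d hd Φ _ q,
      h.lin (fun l => (1 : ℝ) ⊗ₜ[k] v l) p q]
  · rw [fcmp_apply, h.alt (fun l => (1 : ℝ) ⊗ₜ[k] v l) p q hpq (by rw [hv]), map_zero]

/-- A real form all of whose components are killed by the rational elements of the unitary Lie
algebra is killed by the real ones. -/
theorem kills_real (hd : 0 < algebraMap k ℝ d) {κ : Type} [Fintype κ] [DecidableEq κ]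
    (Φ : MultilinearMap ℝ (fun _ : κ => ℝ ⊗[k] T) ℝ)
    (h : ∀ lam : ℝ →ₗ[k] k, ∀ x : Module.End k T, (∀ u v, b (x u) v + b u (x v) = 0) →
      x * δ = δ * x → Kills x (fcmp lam Φ))
    (X : Module.End ℝ (ℝ ⊗[k] T)) (hX : ∀ u v, bx ℝ b (X u) v + bx ℝ b u (X v) = 0)
    (hXJ : X * jj δ d = jj δ d * X) : Kills X Φ := by
  have h1 : X ∈ extEnd ℝ (fun x : T →ₗ[k] T => (∀ u v, b (x u) v + b u (x v) = 0) ∧
      (x : Module.End k T) * δ = δ * x) := by
    refine end_mem_span _ X fun lam => ⟨fun u v => ?_, ?_⟩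
    · rw [cmpE_apply, cmpE_apply, ← lam_omega b (bx ℝ b) (bx_one b ℝ),
        ← lam_omega' b (bx ℝ b) (bx_one b ℝ), ← map_add, hX, map_zero]
    · refine comm_cmp ?_ lam
      refine LinearMap.ext fun u => ?_
      have h2 := congrArg (fun P : Module.End ℝ (ℝ ⊗[k] T) => P u) hXJ
      simp only [Module.End.mul_apply, jj_apply, map_smul] at h2
      have h3 := congrArg (fun z => Real.sqrt (algebraMap k ℝ d) • z) h2
      simp only [smul_smul, mul_inv_cancel₀ (Real.sqrt_pos.2 hd).ne', one_smul] at h3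
      exact h3
  clear hX hXJ
  unfold extEnd at h1
  induction h1 using Submodule.span_induction with
  | mem X h2 =>
    obtain ⟨x, ⟨hx1, hx2⟩, rfl⟩ := h2
    refine kills_span (fun ψ => ∀ x : Module.End k T, (∀ u v, b (x u) v + b u (x v) = 0) →
      x * δ = δ * x → Kills x ψ) x (fun ψ hψ => hψ x hx1 hx2) Φ ?_
    exact form_mem_span _ Φ h
  | zero =>
    intro v
    refine Finset.sum_eq_zero fun j _ => ?_
    rw [LinearMap.zero_apply]
    exact Φ.map_coord_zero j (Function.update_self _ _ _)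
  | add X Y _ _ hX hY =>
    intro v
    have h3 := congrArg₂ (fun x y : ℝ => x + y) (hX v) (hY v)
    simp only [add_zero] at h3
    rw [← h3, ← Finset.sum_add_distrib]
    refine Finset.sum_congr rfl fun j _ => ?_
    rw [LinearMap.add_apply, MultilinearMap.map_update_add]
  | smul c X _ hX =>
    intro v
    rw [← mul_zero c, ← hX v, Finset.mul_sum]
    refine Finset.sum_congr rfl fun j _ => ?_
    rw [LinearMap.smul_apply, MultilinearMap.map_update_smul, smul_eq_mul]

/-! ### The main theorem -/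

theorem trace_wdg {F V : Type} [Field F] [AddCommGroup V] [Module F V] [FiniteDimensional F V]
    (b : V →ₗ[F] V →ₗ[F] F) (hsym : ∀ u v, b u v = b v u) (u v : V) :
    LinearMap.trace F V (wdg b u v) = 0 := by
  rw [wdg, map_sub, LinearMap.trace_smulRight, LinearMap.trace_smulRight, hsym, sub_self]

theorem trace_skew {F V : Type} [Field F] [CharZero F] [AddCommGroup V] [Module F V]
    [FiniteDimensional F V] (hS : S_SPAN)
    (b : V →ₗ[F] V →ₗ[F] F) (hsym : ∀ u v, b u v = b v u) (hnd : ∀ u, (∀ v, b u v = 0) → u = 0)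
    (x : Module.End F V) (hx : ∀ u v, b (x u) v + b u (x v) = 0) :
    LinearMap.trace F V x = 0 := by
  have h1 := hS F V b hsym hnd x hx
  clear hx
  induction h1 using Submodule.span_induction with
  | mem y hy =>
    obtain ⟨u, v, rfl⟩ := hy
    exact trace_wdg b hsym u v
  | zero => exact map_zero _
  | add a c _ _ ha hc => rw [map_add, ha, hc, add_zero]
  | smul c a _ ha => rw [map_smul, ha, smul_zero]

variable {m : ℕ}
  (hΛ : ∀ φ : MultilinearMap k (fun _ : Fin m × Fin 2 => T) k,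
    IsDRBForm K (ξ : ι → (T →ₗ[k] ℂ)) φ → IsSesqui δ φ → ∀ x : Module.End k T,
    (∀ u v, b (x u) v + b u (x v) = 0) → x * δ = δ * x → Kills x φ)
  (hdet : ∀ φ : MultilinearMap k (fun _ : Fin m × Fin 2 => T) k,
    IsDRBForm K (ξ : ι → (T →ₗ[k] ℂ)) φ → IsDetForm δ φ → φ = 0)

include hsym hnd hd hδδ hδb hδ hb hss hend hΛ hdet in
/-- All skew endomorphisms commuting with the complex structure are in the Lie algebra. -/
theorem mem_gRB (S3 : S_KILL) (hPF : KU.S_PF) (hCAS : KU.S_CAS)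
    (hSPLIT : S_SPLIT) (hNORM : KU.S_NORM) (hDU : S_DU) (hUA : S_UA) (hUE : S_UE) (hUB : S_UB)
    (hSPAN : S_SPAN) (hVOL : S_VOL) (hDET : S_DET) (hm : 2 ≤ m) (hn : finrank k T = 4 * m)
    (hsig : WittTwo (bx ℝ b)) (x : Module.End ℝ (ℝ ⊗[k] T))
    (hx : ∀ u v, bx ℝ b (x u) v + bx ℝ b u (x v) = 0) (hxJ : x * jj δ d = jj δ d * x) :
    x ∈ gR (K := K) ξ := by
  have hg := goodB (K := K) ξ b δ d hsym hnd hd hδδ hδb hδ hb hss hend S3 hsig
  have hTn : finrank ℝ (ℝ ⊗[k] T) = 4 * m := by rw [Module.finrank_baseChange, hn]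
  rcases real_alt hPF hCAS hSPLIT hNORM hDU hUA hUE hUB hg (by omega) hsig.1 hsig.2.1 with h | h
  · -- the trace is not always zero
    have h1 : ∃ x₀ ∈ gR (K := K) ξ, LinearMap.trace ℝ (ℝ ⊗[k] T) (x₀ * jj δ d) ≠ 0 := by
      by_contra hcon
      push Not at hcon
      obtain ⟨Ψ, hΨ0, hΨd, hΨ⟩ := hDET (ℝ ⊗[k] T) (jj δ d) hg.herm.sq (Fin m × Fin 2) (by
        rw [hTn, Fintype.card_prod, Fintype.card_fin, Fintype.card_fin]
        ring)
      have h2 : ∀ y ∈ gR (K := K) ξ, Kills y Ψ := by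
        intro y hy
        exact hΨ y (hg.commJ y hy)
          (trace_skew hSPAN (bx ℝ b) hg.herm.symm hg.herm.nondeg y (hg.skew y hy)) (hcon y hy)
      apply hΨ0
      have h3 : ∀ lam : ℝ →ₗ[k] k, fcmp lam Ψ = 0 := fun lam =>
        hdet _ (fcmp_drb (K := K) ξ Ψ h2 lam) (det_fcmp δ d hd Ψ hΨd lam)
      refine Basis.ext_multilinear (fun _ => (Module.finBasis k T).baseChange ℝ) fun I => ?_
      have h4 : (fun l => (Module.finBasis k T).baseChange ℝ (I l)) =
          fun l => (1 : ℝ) ⊗ₜ[k] Module.finBasis k T (I l) := by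
        funext l
        rw [Basis.baseChange_apply]
      rw [h4]
      apply eq_zero_of_dual (k := k)
      intro lam
      have h5 := congrArg (fun φ => φ (fun l => Module.finBasis k T (I l))) (h3 lam)
      rw [fcmp_apply] at h5
      exact h5
    obtain ⟨x₀, hx₀g, ht⟩ := h1
    set c : ℝ := LinearMap.trace ℝ (ℝ ⊗[k] T) (x * jj δ d) /
      LinearMap.trace ℝ (ℝ ⊗[k] T) (x₀ * jj δ d) with hc
    have h2 : x - c • x₀ ∈ gR (K := K) ξ := by
      refine h _ ?_ ?_ ?_
      · intro u v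
        have h3 := hx u v
        have h4 := hg.skew x₀ hx₀g u v
        simp only [LinearMap.sub_apply, LinearMap.smul_apply, map_sub, map_smul, smul_eq_mul]
        linear_combination h3 - c * h4
      · refine LinearMap.ext fun u => ?_
        have h3 := congrArg (fun P : Module.End ℝ (ℝ ⊗[k] T) => P u) hxJ
        have h4 := congrArg (fun P : Module.End ℝ (ℝ ⊗[k] T) => P u) (hg.commJ x₀ hx₀g)
        simp only [Module.End.mul_apply] at h3 h4
        simp only [Module.End.mul_apply, LinearMap.sub_apply, LinearMap.smul_apply, map_sub,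
          map_smul, h3, h4]
      · have h3 : (x - c • x₀) * jj δ d = x * jj δ d - c • (x₀ * jj δ d) := by
          refine LinearMap.ext fun u => ?_
          simp only [Module.End.mul_apply, LinearMap.sub_apply, LinearMap.smul_apply]
        have h4 := (LinearMap.trace ℝ (ℝ ⊗[k] T)).map_sub (x * jj δ d) (c • (x₀ * jj δ d))
        have h5 := (LinearMap.trace ℝ (ℝ ⊗[k] T)).map_smul c (x₀ * jj δ d)
        rw [h3]
        refine h4.trans ?_
        rw [h5, smul_eq_mul, hc, div_mul_cancel₀ _ ht, sub_self]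
    have h3 : x = (x - c • x₀) + c • x₀ := by
      refine LinearMap.ext fun u => ?_
      simp only [LinearMap.add_apply, LinearMap.sub_apply, sub_add_cancel]
    rw [h3]
    exact Submodule.add_mem _ h2 (Submodule.smul_mem _ c hx₀g)
  · exfalso
    obtain ⟨V₀, hV, hV', hst⟩ := h
    have hev : finrank ℝ V₀ = 2 * m := by
      have h1 := Submodule.finrank_add_eq_of_isCompl hV
      have h2 : finrank ℝ (V₀.map (jj δ d)) = finrank ℝ V₀ := by
        refine (Submodule.equivMapOfInjective (jj δ d) ?_ V₀).finrank_eq.symm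
        rw [injective_iff_map_eq_zero]
        intro u hu
        have h3 := congrArg (fun P : Module.End ℝ (ℝ ⊗[k] T) => P u) hg.herm.sq
        simp only [Module.End.mul_apply, hu, map_zero, LinearMap.neg_apply,
          Module.End.one_apply] at h3
        exact neg_eq_zero.1 h3.symm
      rw [h2, hTn] at h1
      omega
    obtain ⟨Φ, hΦs, hΦk, hΦn⟩ := hVOL (ℝ ⊗[k] T) (bx ℝ b) (jj δ d) hg.herm V₀ hV hV' m (by omega)
      hev
    apply hΦn
    have h2 : ∀ y ∈ gR (K := K) ξ, Kills y Φ := by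
      intro y hy
      exact hΦk y (hg.skew y hy) (hg.commJ y hy) (hst y hy)
    intro X hX hXJ
    refine kills_real b δ d hd Φ (fun lam y hy hyδ => ?_) X hX hXJ
    exact hΛ _ (fcmp_drb (K := K) ξ Φ h2 lam) (sesqui_fcmp δ d hd Φ hΦs lam) y hy hyδ

include hsym hnd hd hδδ hδb hδ hb hss hend hΛ hdet in
/-- All skew endomorphisms commuting with `δ` kill the de Rham-Betti forms. -/
theorem kills_of_skewB (S3 : S_KILL) (hPF : KU.S_PF) (hCAS : KU.S_CAS)
    (hSPLIT : S_SPLIT) (hNORM : KU.S_NORM) (hDU : S_DU) (hUA : S_UA) (hUE : S_UE) (hUB : S_UB)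
    (hSPAN : S_SPAN) (hVOL : S_VOL) (hDET : S_DET) (hm : 2 ≤ m) (hn : finrank k T = 4 * m)
    (hsig : WittTwo (bx ℝ b)) {κ : Type} [Fintype κ] [DecidableEq κ]
    (φ : MultilinearMap k (fun _ : κ => T) k) (hφ : IsDRBForm K (ξ : ι → (T →ₗ[k] ℂ)) φ)
    (x : Module.End k T) (hx : ∀ u v, b (x u) v + b u (x v) = 0) (hxδ : x * δ = δ * x) :
    Kills x φ := by
  have h1 := mem_gRB (K := K) ξ b δ d hsym hnd hd hδδ hδb hδ hb hss hend hΛ hdet S3 hPF
    hCAS hSPLIT hNORM hDU hUA hUE hUB hSPAN hVOL hDET hm hn hsig (x.baseChange ℝ)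
    (bb_skew b hx) (by
      refine LinearMap.ext fun u => ?_
      have h2 := congrArg (fun P : Module.End k T => P.baseChange ℝ) hxδ
      simp only [bc_mul] at h2
      have h3 := congrArg (fun P : Module.End ℝ (ℝ ⊗[k] T) => P u) h2
      simp only [Module.End.mul_apply] at h3
      rw [Module.End.mul_apply, Module.End.mul_apply, jj_apply, jj_apply, map_smul, h3])
  have h2 := h1 κ φ hφ
  intro v
  have h3 := h2 (fun l => (1 : ℝ) ⊗ₜ[k] v l)
  have h4 : ∀ j, Function.update (fun l => (1 : ℝ) ⊗ₜ[k] v l) j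
      ((x.baseChange ℝ) ((1 : ℝ) ⊗ₜ[k] v j)) =
      fun l => (1 : ℝ) ⊗ₜ[k] Function.update v j (x (v j)) l := by
    intro j
    funext l
    by_cases hl : l = j
    · subst hl
      rw [Function.update_self, Function.update_self, LinearMap.baseChange_tmul]
    · rw [Function.update_of_ne hl, Function.update_of_ne hl]
  simp only [h4, bcm_one] at h3
  rw [← map_sum] at h3
  exact (map_eq_zero_iff _ (algebraMap k ℝ).injective).1 h3

end

end Pool.Agent.W516.BQ
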