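import Mathlib
import Pool.Agent.W516.KU.Final
import Pool.Agent.W516.BQ.Main
import Pool.Agent.W578.BQ.VOL
import Pool.Agent.W460.BQ.DET

/-!
# De Rham-Betti classes on abelian varieties of signature (1, n - 1)
-/

set_option linter.unusedSectionVars false

namespace Pool.Agent.W516.BQ

open Module TensorProduct Pool.Agent.H204R3.SP Pool.Agent.H204R3.GP Pool.Agent.W516.DR
  Pool.Agent.W516.KC Pool.Agent.W516.K3 Pool.Agent.W32.DK Pool.Agent.W516.KU

noncomputable section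

section Norm

variable {k K : Type} [Field k] [Field K] [CharZero k] [CharZero K] [Algebra k K]
  [Algebra k ℂ] [Algebra K ℂ] [IsScalarTower k K ℂ]
  {W : Type} [AddCommGroup W] [Module k W] [FiniteDimensional k W]
  {ν : Type} [Fintype ν] [DecidableEq ν] (η : Basis ν ℂ (W →ₗ[k] ℂ)) (s : ℂ) (hs : s ≠ 0)

/-- The normalised periods. -/
def nrm : Basis ν ℂ (W →ₗ[k] ℂ) := η.unitsSMul (fun _ => (Units.mk0 s hs)⁻¹)

theorem nrm_apply (i : ν) (w : W) : nrm η s hs i w = s⁻¹ * η i w := by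
  rw [nrm, Basis.unitsSMul_apply]
  rfl

theorem prod_nrm (r : ℕ) (J : Fin r × Fin 2 → ν) (v : Fin r × Fin 2 → W) :
    ∏ l, nrm η s hs (J l) (v l) = ((s ^ 2) ^ r)⁻¹ * ∏ l, η (J l) (v l) := by
  simp only [nrm_apply]
  rw [Finset.prod_mul_distrib, Finset.prod_const, Finset.card_univ, Fintype.card_prod,
    Fintype.card_fin, Fintype.card_fin, inv_pow, mul_comm r 2, pow_mul]

theorem form_iff {r : ℕ} (φ : MultilinearMap k (fun _ : Fin r × Fin 2 => W) k) :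
    IsDeRhamBettiForm K (η : ν → (W →ₗ[k] ℂ)) (s ^ 2) r φ ↔
      IsDRBForm K (nrm η s hs : ν → (W →ₗ[k] ℂ)) φ := by
  have h0 : ((s ^ 2) ^ r : ℂ) ≠ 0 := pow_ne_zero _ (pow_ne_zero _ hs)
  constructor
  · rintro ⟨a, ha⟩
    refine ⟨a, fun v => ?_⟩
    simp only [prod_nrm]
    have h1 : algebraMap k ℂ (φ v) = ((s ^ 2) ^ r)⁻¹ * ((s ^ 2) ^ r * algebraMap k ℂ (φ v)) := by
      rw [← mul_assoc, inv_mul_cancel₀ h0, one_mul]
    rw [h1, ha, Finset.mul_sum]
    exact Finset.sum_congr rfl fun J _ => by ring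
  · rintro ⟨a, ha⟩
    refine ⟨a, fun v => ?_⟩
    rw [ha, Finset.mul_sum]
    refine Finset.sum_congr rfl fun J _ => ?_
    rw [prod_nrm]
    field_simp

theorem end_iff (P : W →ₗ[k] W) :
    IsDeRhamBettiEnd K (nrm η s hs : ν → (W →ₗ[k] ℂ)) P ↔
      IsDeRhamBettiEnd K (η : ν → (W →ₗ[k] ℂ)) P := by
  have h0 : s⁻¹ ≠ 0 := inv_ne_zero hs
  constructor
  · rintro ⟨a, ha⟩
    refine ⟨a, fun i w => ?_⟩
    have h1 := ha i w
    simp only [nrm_apply] at h1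
    apply mul_left_cancel₀ h0
    rw [h1, Finset.mul_sum]
    exact Finset.sum_congr rfl fun j _ => by ring
  · rintro ⟨a, ha⟩
    refine ⟨a, fun i w => ?_⟩
    simp only [nrm_apply]
    rw [ha, Finset.mul_sum]
    exact Finset.sum_congr rfl fun j _ => by ring

theorem sub_iff (U : Submodule k W) :
    IsDeRhamBettiSubspace K (nrm η s hs : ν → (W →ₗ[k] ℂ)) U ↔
      IsDeRhamBettiSubspace K (η : ν → (W →ₗ[k] ℂ)) U := by
  have h0 : s⁻¹ ≠ 0 := inv_ne_zero hs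
  let e : (U → ℂ) ≃ₗ[K] (U → ℂ) :=
    LinearEquiv.piCongrRight fun _ => LinearEquiv.ofBijective (LinearMap.mulLeft K s⁻¹)
      ⟨fun x y h => mul_left_cancel₀ h0 h, fun y => ⟨s * y, by
        change s⁻¹ * (s * y) = y
        rw [← mul_assoc, inv_mul_cancel₀ hs, one_mul]⟩⟩
  have h1 : Submodule.span K (Set.range fun (i : ν) (u : U) => nrm η s hs i u) =
      (Submodule.span K (Set.range fun (i : ν) (u : U) => η i u)).map e.toLinearMap := by
    rw [Submodule.map_span, ← Set.range_comp]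
    congr 2
    funext i
    funext u
    rw [nrm_apply]
    rfl
  unfold IsDeRhamBettiSubspace
  rw [h1, LinearEquiv.finrank_map_eq]

theorem ss_iff : DeRhamBettiSemisimple K (nrm η s hs : ν → (W →ₗ[k] ℂ)) ↔
    DeRhamBettiSemisimple K (η : ν → (W →ₗ[k] ℂ)) := by
  unfold DeRhamBettiSemisimple
  simp only [sub_iff]

end Norm

variable {k K : Type} [Field k] [Field K] [CharZero k] [CharZero K] [IsAlgClosed K] [Algebra k K]
  [Algebra k ℂ] [Algebra K ℂ] [IsScalarTower k K ℂ] [Algebra k ℝ] [IsScalarTower k ℝ ℂ]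
  {W : Type} [AddCommGroup W] [Module k W] [FiniteDimensional k W]

/-- Products of values of `ω (δ u) v` and `ω (δ δ u) v` are combinations of products of values of
`ω` and `ω (δ u) v`. -/
theorem span_conv (ω : W →ₗ[k] W →ₗ[k] k) (δ : W →ₗ[k] W) (d : k) (hd : d ≠ 0)
    (hδδ : ∀ u, δ (δ u) = -(d • u)) {κ : Type} [Fintype κ]
    (φ : MultilinearMap k (fun _ : κ => W) k)
    (h : φ ∈ Submodule.span k {ψ | PairProdB ![ω ∘ₗ δ, (ω ∘ₗ δ) ∘ₗ δ] ψ}) :
    φ ∈ Submodule.span k {ψ | PairProdB ![ω, ω ∘ₗ δ] ψ} := by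
  induction h using Submodule.span_induction with
  | mem ψ hψ =>
    obtain ⟨m, e, t, ht⟩ := hψ
    let c : k := ∏ l, if t l = 0 then 1 else -d
    have hc : c ≠ 0 := by
      refine Finset.prod_ne_zero_iff.2 fun l _ => ?_
      split_ifs
      · exact one_ne_zero
      · exact neg_ne_zero.2 hd
    have h1 : ψ = c • (c⁻¹ • ψ) := by rw [smul_smul, mul_inv_cancel₀ hc, one_smul]
    rw [h1]
    refine Submodule.smul_mem _ _ (Submodule.subset_span ⟨m, e, fun l => 1 - t l, fun v => ?_⟩)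
    rw [smul_apply, ht, smul_eq_mul]
    have h2 : ∏ l, (![ω ∘ₗ δ, (ω ∘ₗ δ) ∘ₗ δ] (t l)) (v (e (l, 0))) (v (e (l, 1))) =
        c * ∏ l, (![ω, ω ∘ₗ δ] (1 - t l)) (v (e (l, 0))) (v (e (l, 1))) := by
      rw [← Finset.prod_mul_distrib]
      refine Finset.prod_congr rfl fun l _ => ?_
      generalize t l = q
      fin_cases q
      · simp
      · simp [hδδ]
    rw [h2, ← mul_assoc, inv_mul_cancel₀ hc, one_mul]
  | zero => exact zero_mem _
  | add a b _ _ ha hb => exact add_mem ha hb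
  | smul c a _ ha => exact Submodule.smul_mem _ c ha

variable {ν : Type} [Fintype ν] [DecidableEq ν] (η : Basis ν ℂ (W →ₗ[k] ℂ)) {τ : ℂ}
  (hτ : τ ≠ 0)
  (ω : W →ₗ[k] W →ₗ[k] k) (halt : ∀ v, ω v v = 0) (hnd : ∀ u, (∀ v, ω u v = 0) → u = 0)
  (δ : W →ₗ[k] W) (d : k) (hd : 0 < algebraMap k ℝ d) (hδδ : ∀ u, δ (δ u) = -(d • u))
  (hωδ : ∀ u v, ω (δ u) v = -ω u (δ v)) (hsig : WittTwo (bx ℝ (ω ∘ₗ δ)))
  (hω : IsDeRhamBettiBilinear K (η : ν → (W →ₗ[k] ℂ)) τ ω)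
  (hδ : IsDeRhamBettiEnd K (η : ν → (W →ₗ[k] ℂ)) δ)
  (hss : DeRhamBettiSemisimple K (η : ν → (W →ₗ[k] ℂ)))
  (hend : ∀ P : W →ₗ[k] W, IsDeRhamBettiEnd K (η : ν → (W →ₗ[k] ℂ)) P →
    ∃ a c : k, ∀ u, P u = a • u + c • δ u)
  {m : ℕ} (hm : 2 ≤ m) (hn : finrank k W = 4 * m)
  (hΛ : ∀ φ : MultilinearMap k (fun _ : Fin m × Fin 2 => W) k,
    IsDeRhamBettiForm K (η : ν → (W →ₗ[k] ℂ)) τ m φ → IsSesqui δ φ → ∀ x : W →ₗ[k] W,
    (∀ u v, ω (x u) v + ω u (x v) = 0) → (∀ u, x (δ u) = δ (x u)) → Kills x φ)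
  (hdet : ∀ φ : MultilinearMap k (fun _ : Fin m × Fin 2 => W) k,
    IsDeRhamBettiForm K (η : ν → (W →ₗ[k] ℂ)) τ m φ → IsDetForm δ φ → φ = 0)

include hτ halt hnd hd hδδ hωδ hsig hω hδ hss hend hm hn hΛ hdet in
/-- The de Rham-Betti classes on the powers of the abelian variety. -/
theorem drb_abelian (r : ℕ) (φ : MultilinearMap k (fun _ : Fin r × Fin 2 => W) k)
    (hφ : IsDeRhamBettiForm K (η : ν → (W →ₗ[k] ℂ)) τ r φ) :
    φ ∈ Submodule.span k {ψ | PairProdB ![ω, ω ∘ₗ δ] ψ} := by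
  obtain ⟨s, hs2⟩ := IsAlgClosed.exists_pow_nat_eq τ (n := 2) two_pos
  have hs : s ≠ 0 := by
    rintro rfl
    rw [zero_pow two_ne_zero] at hs2
    exact hτ hs2.symm
  subst hs2
  have : Nontrivial W := Module.nontrivial_of_finrank_pos (R := k) (by omega)
  have hskew : ∀ u v, ω u v = -ω v u := by
    intro u v
    have h1 := halt (u + v)
    simp only [map_add, LinearMap.add_apply, halt, zero_add, add_zero] at h1
    linear_combination h1
  have hd0 : d ≠ 0 := by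
    rintro rfl
    rw [map_zero] at hd
    exact lt_irrefl _ hd
  have hsym : ∀ u v, (ω ∘ₗ δ) u v = (ω ∘ₗ δ) v u := by
    intro u v
    rw [LinearMap.comp_apply, LinearMap.comp_apply, hωδ, hskew u (δ v), neg_neg]
  have hδδ' : (δ : Module.End k W) * δ = -(d • 1) := LinearMap.ext fun u => by
    rw [Module.End.mul_apply, hδδ, LinearMap.neg_apply, LinearMap.smul_apply,
      Module.End.one_apply]
  have hδinj : ∀ u, δ u = 0 → u = 0 := by
    intro u hu
    have h1 := hδδ u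
    rw [hu, map_zero] at h1
    have h2 : d • u = 0 := by rw [← neg_eq_zero]; exact h1.symm
    exact (smul_eq_zero.1 h2).resolve_left hd0
  have hnd' : ∀ u, (∀ v, (ω ∘ₗ δ) u v = 0) → u = 0 := by
    intro u hu
    exact hδinj u (hnd _ hu)
  have hδb : ∀ u v, (ω ∘ₗ δ) (δ u) v = -(ω ∘ₗ δ) u (δ v) := by
    intro u v
    rw [LinearMap.comp_apply, LinearMap.comp_apply, hωδ]
  have hb : IsDRBForm K (nrm η s hs : ν → (W →ₗ[k] ℂ)) (one2 (ω ∘ₗ δ)) := by
    rw [← form_iff]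
    exact one2_drb _ _ _ (drb_comp_end (η : ν → (W →ₗ[k] ℂ)) (s ^ 2) ω hω δ hδ)
  -- comparison of the conditions for `ω` and `ω (δ u) v`
  have hcmp : ∀ x : W →ₗ[k] W, (∀ u, x (δ u) = δ (x u)) →
      ((∀ u v, ω (x u) v + ω u (x v) = 0) ↔
        ∀ u v, (ω ∘ₗ δ) (x u) v + (ω ∘ₗ δ) u (x v) = 0) := by
    intro x hx
    constructor
    · intro h u v
      rw [LinearMap.comp_apply, LinearMap.comp_apply, ← hx]
      exact h (δ u) v
    · intro h u v
      have h1 := h (δ u) v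
      rw [LinearMap.comp_apply, LinearMap.comp_apply, hx, hδδ, hδδ, map_neg, map_neg,
        LinearMap.neg_apply, LinearMap.neg_apply, map_smul, map_smul, LinearMap.smul_apply,
        LinearMap.smul_apply, smul_eq_mul, smul_eq_mul] at h1
      have h2 : d * (ω (x u) v + ω u (x v)) = 0 := by linear_combination -h1
      exact (mul_eq_zero.1 h2).resolve_left hd0
  refine span_conv ω δ d hd0 hδδ φ ?_
  refine p_ufft k W (ω ∘ₗ δ) δ d hsym hnd' hd0 hδδ' hδb _ φ fun x hx hxδ => ?_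
  refine kills_of_skewB (K := K) (m := m) (nrm η s hs) (ω ∘ₗ δ) δ d hsym hnd' hd hδδ' hδb
    ((end_iff η s hs δ).2 hδ) hb ((ss_iff η s hs).2 hss) ?_ ?_ ?_ p_kill p_pf p_cas p_split p_norm
    p_du p_ua p_ue p_ub Pool.Agent.W440.DK.T_SPAN Pool.Agent.W578.BQ.T_VOL
    Pool.Agent.W460.BQ.T_DET hm hn hsig φ
    ((form_iff η s hs φ).1 hφ) x hx hxδ
  · intro P hP
    obtain ⟨a, c, h⟩ := hend P ((end_iff η s hs P).1 hP)
    exact ⟨a, c, LinearMap.ext h⟩
  · intro ψ hψ hψs x hx hxδ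
    have hxδ' : ∀ u, x (δ u) = δ (x u) := fun u => congrArg (fun P : Module.End k W => P u) hxδ
    exact hΛ ψ ((form_iff η s hs ψ).2 hψ) hψs x ((hcmp x hxδ').2 hx) hxδ'
  · intro ψ hψ hψd
    exact hdet ψ ((form_iff η s hs ψ).2 hψ) hψd

end

end Pool.Agent.W516.BQ
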